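import Mathlib
import Pool.Agent.H60.Walk

namespace Pool.Agent.Results.MP_1596c6_nt.Counter

open Pool.Agent.H60.Walk

/-- For `T = {(33, 784), (773, 263424)}` the pair `P = (773, 263424)` has `γ = 1029 < 49 ^ 2`, but
it is slowest at `g_t + β g_{t-1}` for only finitely many `t`. -/
theorem result : ∃ (T : Set (ℕ × ℕ)) (Γ : ℝ) (P : ℕ × ℕ),
    (∀ Q ∈ T, 0 < Q.1 ∧ 0 < Q.2 ∧ Nat.Coprime Q.1 Q.2) ∧
    IsLeast {x | ∃ Q ∈ T, x = gam Q.1 Q.2} Γ ∧ P ∈ T ∧ gam P.1 P.2 < Γ ^ 2 ∧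
    {t : ℕ | 2 ≤ t ∧ P ∈ slowest T (g P.1 P.2 t + P.2 * g P.1 P.2 (t - 1))}.Finite := by
  have g1 : gam 33 784 = 49 := by simpa using gam_eq 33 784 49 16 rfl rfl
  have g2 : gam 773 263424 = 1029 := by simpa using gam_eq 773 263424 1029 256 rfl rfl
  refine ⟨{(33, 784), (773, 263424)}, 49, (773, 263424), ?_, ⟨⟨(33, 784), by simp, g1.symm⟩, ?_⟩,
    by simp, by rw [g2]; norm_num, ?_⟩
  · rintro Q (rfl | rfl) <;> norm_num
  · rintro x ⟨Q, rfl | rfl, rfl⟩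
    · exact g1.ge
    · rw [g2]; norm_num
  refine (Set.finite_lt_nat 10).subset ?_
  rintro t ⟨-, -, h⟩
  by_contra ht
  obtain ⟨j, rfl⟩ : ∃ j, t = j + 8 + 1 + 1 := ⟨t - 10, by simp at ht; omega⟩
  have h1 := h (33, 784) (by simp)
  have h2 := s_le_self (α := 773) (β := 263424) (by norm_num) (by norm_num) (j + 8 + 1)
  simp only [Nat.add_sub_cancel] at h1
  have hA : (16 : ℤ) ^ j ≤ 21 ^ j := pow_le_pow_left₀ (by norm_num) (by norm_num) j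
  have hB : (0 : ℤ) < 16 ^ j := by positivity
  have m1 : (21 : ℤ) ^ (j + 8) % 5 = 1 := by
    simpa [Int.ModEq] using (show (21 : ℤ) ≡ 1 [ZMOD 5] by decide).pow (j + 8)
  have m2 : (16 : ℤ) ^ (j + 8) % 5 = 1 := by
    simpa [Int.ModEq] using (show (16 : ℤ) ≡ 1 [ZMOD 5] by decide).pow (j + 8)
  have hC : 64 * (16 : ℤ) ^ (j + 8) < 9 * 21 ^ (j + 8) := by
    rw [pow_add, pow_add]; norm_num; omega
  have hD : (0 : ℤ) < 16 ^ (j + 8) := by positivity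
  obtain ⟨a₁, ha₁⟩ : ∃ a₁ : ℕ, 5 * (a₁ : ℤ) = 9 * 21 ^ (j + 8) - 64 * 16 ^ (j + 8) :=
    ⟨((9 * 21 ^ (j + 8) - 64 * 16 ^ (j + 8) : ℤ) / 5).toNat, by omega⟩
  obtain ⟨a₂, ha₂⟩ : ∃ a₂ : ℕ, 5 * (a₂ : ℤ) = 441 * 21 ^ (j + 8) + 1024 * 16 ^ (j + 8) :=
    ⟨((441 * 21 ^ (j + 8) + 1024 * 16 ^ (j + 8) : ℤ) / 5).toNat, by omega⟩
  have h3 := le_s (α := 33) (β := 784) (a₁ := a₁) (a₂ := a₂) (by norm_num) (by norm_num)
    (by omega) (by omega) (j + 8 + 1 + 1 + 1)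
  have h4 : w 33 784 a₁ a₂ (j + 8 + 1 + 1 + 1) =
      g 773 263424 (j + 8 + 1 + 1) + 263424 * g 773 263424 (j + 8 + 1) := by
    have c1 := g_closed 33 784 49 16 rfl rfl (j + 8 + 1 + 1 + 1)
    have c2 := g_closed 33 784 49 16 rfl rfl (j + 8 + 1 + 1)
    have c3 := g_closed 773 263424 1029 256 rfl rfl (j + 8 + 1 + 1)
    have c4 := g_closed 773 263424 1029 256 rfl rfl (j + 8 + 1)
    have e1 : (1029 : ℤ) ^ (j + 8) = 49 ^ (j + 8) * 21 ^ (j + 8) := by rw [← mul_pow]; norm_num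
    have e2 : (-256 : ℤ) ^ (j + 8) = (-16) ^ (j + 8) * 16 ^ (j + 8) := by rw [← mul_pow]; norm_num
    push_cast at c1 c2 c3 c4
    simp only [pow_succ _ (j + 8 + 1 + 1), pow_succ _ (j + 8 + 1), pow_succ _ (j + 8), e1, e2]
      at c1 c2 c3 c4
    rw [w_eq]
    zify
    generalize (49 : ℤ) ^ (j + 8) = x at *
    generalize (-16 : ℤ) ^ (j + 8) = y at *
    generalize (21 : ℤ) ^ (j + 8) = u at *
    generalize (16 : ℤ) ^ (j + 8) = v at *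
    have : (65 * 1285 : ℤ) ≠ 0 := by norm_num
    refine mul_left_cancel₀ this ?_
    linear_combination 1285 * a₂ * c1 + 1285 * 784 * a₁ * c2 - 65 * c3 - 65 * 263424 * c4 +
      257 * (x * 49 ^ 3 + y * 16 ^ 3) * ha₂ + 257 * 784 * (x * 49 ^ 2 - y * 16 ^ 2) * ha₁
  rw [h4] at h3
  omega

end Pool.Agent.Results.MP_1596c6_nt.Counter
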